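import Pool.Agent.H618R3.FF.Asym

set_option autoImplicit false

/-!
Focal-free binary codes: the rate is at least `1 - 11 / (r - 1)`.

The random coding bound is `1 - log_2 r / (r - 1)` and the upper bound is `1 - 1 / (r - 1)`, so the
deviation of the rate from `1` is of the order `1 / r`.

The construction: the cube is carved greedily into pieces of spheres, at several levels. A word `y`
of a piece with centre `c` differs from `c` in a set `A(y)` of `a` coordinates, and two words of the
same piece differ in a set half of which lies in `A(y)`. So pairwise disjoint differences inside a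
piece are few even if they are short, while words of different pieces of a level are far apart
relative to the radius of the level before. The radii decrease geometrically.
-/

namespace Pool.Agent.Results.MP_fa373d_co.LowerBound

open Finset Filter

/-- The `r` words `f` and `y j` are distinct and form a focal family with focus `f`: in every
coordinate at least `r - 2` of the `r - 1` words `y j` agree with `f`. -/
def Focal (r : ℕ) {n : ℕ} (f : Fin n → Bool) (y : Fin (r - 1) → Fin n → Bool) : Prop :=
  Function.Injective y ∧ (∀ j, y j ≠ f) ∧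
    ∀ i, r - 2 ≤ (univ.filter (fun j => y j i = f i)).card

/-- No `r` members of `F` form a focal family. -/
def FocalFree (r : ℕ) {n : ℕ} (F : Finset (Fin n → Bool)) : Prop :=
  ∀ f ∈ F, ∀ y : Fin (r - 1) → Fin n → Bool, (∀ j, y j ∈ F) → ¬ Focal r f y

/-- The largest cardinality of a focal-free family in `{0,1}^n`. -/
noncomputable def gff (r n : ℕ) : ℕ :=
  sSup {k : ℕ | ∃ F : Finset (Fin n → Bool), FocalFree r F ∧ F.card = k}

/-- The lower exponential growth rate. -/
noncomputable def sigmaMinus (r : ℕ) : ℝ :=
  liminf (fun n : ℕ => Real.logb 2 (gff r n) / n) atTop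

/-- For every `r ≥ 3` there is `c > 0` with `gff r n ≥ c * 2 ^ ((1 - 11 / (r - 1)) n)` for all `n`;
so the lower growth rate is at least `1 - 11 / (r - 1)`. -/
theorem result (r : ℕ) (hr : 3 ≤ r) :
    (∃ c : ℝ, 0 < c ∧ ∀ n : ℕ, c * (2 : ℝ) ^ ((1 - 11 / ((r : ℝ) - 1)) * n) ≤ (gff r n : ℝ)) ∧
      1 - 11 / ((r : ℝ) - 1) ≤ sigmaMinus r := by
  obtain ⟨c, hc, h⟩ := H618R3.FF.lower_all (R := r - 1) (by omega)
  have h1 : r - 1 + 1 = r := by omega
  have h2 : ((r - 1 : ℕ) : ℝ) = (r : ℝ) - 1 := by
    rw [Nat.cast_sub (by omega)]
    simp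
  rw [h1, h2] at h
  exact ⟨⟨c, hc, h⟩, H618R3.FF.sigmaMinus_ge hr⟩

end Pool.Agent.Results.MP_fa373d_co.LowerBound
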