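import Pool.Agent.H618R3.FF.Upper3

set_option autoImplicit false

/-!
Focal-free binary codes: the upper bound `(r - 1) * 2 ^ ⌈(r - 2) n / (r - 1)⌉` is not tight for any
`r ≥ 4`, even in the exponential rate: the rate is at most `1 - (1 + 1 / 335) / (r - 1)`.

The case `r = 4`: by the Elias-Bassalygo bound most words `x` of a large family have a difference
to another word inside a set `E` of at most `0.1164 n` coordinates. For every partition of the
complement of `E` in two parts of equal size no other word differs from `x` only in the first part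
or no other word differs from `x` only in the second part. The pairs of a word `x` and such a part
are counted. The general case follows by cutting the coordinates into blocks for `r = 4` and blocks
for `r = 2`.
-/

namespace Pool.Agent.Results.MP_fa373d_co.UpperBound

open Finset Filter

/-- The `r` words `f` and `y j` are distinct and form a focal family with focus `f`: in every
coordinate at least `r - 2` of the `r - 1` words `y j` agree with `f`. -/
def Focal (r : ℕ) {n : ℕ} (f : Fin n → Bool) (y : Fin (r - 1) → Fin n → Bool) : Prop :=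
  Function.Injective y ∧ (∀ j, y j ≠ f) ∧
    ∀ i, r - 2 ≤ (univ.filter (fun j => y j i = f i)).card

/-- No `r` members of `F` form a focal family. -/
def FocalFree (r : ℕ) {n : ℕ} (F : Finset (Fin n → Bool)) : Prop :=
  ∀ f ∈ F, ∀ y : Fin (r - 1) → Fin n → Bool, (∀ j, y j ∈ F) → ¬ Focal r f y

/-- The largest cardinality of a focal-free family in `{0,1}^n`. -/
noncomputable def gff (r n : ℕ) : ℕ :=
  sSup {k : ℕ | ∃ F : Finset (Fin n → Bool), FocalFree r F ∧ F.card = k}

/-- The upper exponential growth rate. -/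
noncomputable def sigmaPlus (r : ℕ) : ℝ :=
  limsup (fun n : ℕ => Real.logb 2 (gff r n) / n) atTop

/-- For every `r ≥ 4` there is `C` with `gff r n ≤ C * 2 ^ ((1 - (1 + 1 / 335) / (r - 1)) n)` for
all `n`; so the upper growth rate is at most `1 - (1 + 1 / 335) / (r - 1)`, which is less than
`(r - 2) / (r - 1)`. -/
theorem result (r : ℕ) (hr : 4 ≤ r) :
    (∃ C : ℝ, 0 < C ∧ ∀ n : ℕ,
      (gff r n : ℝ) ≤ C * (2 : ℝ) ^ ((1 - (1 + 1 / 335) / ((r : ℝ) - 1)) * n)) ∧
      sigmaPlus r ≤ 1 - (1 + 1 / 335) / ((r : ℝ) - 1) ∧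
      sigmaPlus r < ((r : ℝ) - 2) / ((r : ℝ) - 1) := by
  obtain ⟨t, rfl⟩ : ∃ t, r = t + 1 := ⟨r - 1, by omega⟩
  obtain ⟨C, hC, h⟩ := H618R3.FF.upper_all (t := t) (by omega)
  have h2 : (((t + 1 : ℕ) : ℝ)) - 1 = (t : ℝ) := by
    push_cast
    ring
  have h3 : (((t + 1 : ℕ) : ℝ)) - 2 = (t : ℝ) - 1 := by
    push_cast
    ring
  rw [h2, h3]
  have h4 : sigmaPlus (t + 1) ≤ 1 - (1 + 1 / 335) / (t : ℝ) :=
    H618R3.FF.sigmaPlus_le_of_UB (t := t) (by omega) hC h
  refine ⟨⟨C, hC, h⟩, h4, lt_of_le_of_lt h4 ?_⟩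
  have ht : (0 : ℝ) < t := by
    have : 0 < t := by omega
    exact_mod_cast this
  rw [lt_div_iff₀ ht, sub_mul, div_mul_cancel₀ _ ht.ne']
  linarith

end Pool.Agent.Results.MP_fa373d_co.UpperBound
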